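import Pool.Agent.BlindPath.Defs

/-!
The limit of a sequence of mazes whose origin component is a path, along an ultrafilter.
-/

set_option autoImplicit false

namespace Pool.Agent.Hhelper34.Maze

open Pool.Agent.BlindPath Filter

/-- `Dir` has four elements. -/
theorem exists_dir {U : Ultrafilter ℕ} {Q : ℕ → Dir → Prop} (h : ∀ᶠ n in (U : Filter ℕ), ∃ c, Q n c) :
    ∃ c, ∀ᶠ n in (U : Filter ℕ), Q n c := by
  have h1 : ∀ᶠ n in (U : Filter ℕ), Q n .E ∨ Q n .N ∨ Q n .W ∨ Q n .S := by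
    filter_upwards [h] with n hn
    obtain ⟨c, hc⟩ := hn
    cases c
    · exact Or.inl hc
    · exact Or.inr (Or.inl hc)
    · exact Or.inr (Or.inr (Or.inl hc))
    · exact Or.inr (Or.inr (Or.inr hc))
  rw [Ultrafilter.eventually_or, Ultrafilter.eventually_or, Ultrafilter.eventually_or] at h1
  rcases h1 with h | h | h | h
  · exact ⟨_, h⟩
  · exact ⟨_, h⟩
  · exact ⟨_, h⟩
  · exact ⟨_, h⟩

/-- The limit board, seen from the origins. -/
def lim (U : Ultrafilter ℕ) (M : ℕ → SimpleGraph V) (o : ℕ → V) : SimpleGraph V where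
  Adj u v := ∀ᶠ n in (U : Filter ℕ), (M n).Adj (o n + u) (o n + v)
  symm := ⟨by
    intro u v h
    filter_upwards [h] with n hn using hn.symm⟩
  loopless := by
    constructor
    intro u h
    obtain ⟨n, hn⟩ := h.exists
    exact hn.ne rfl

theorem limit (M : ℕ → SimpleGraph V) (o : ℕ → V) (I : ℕ → Set ℤ) (γ : ℕ → ℤ → V) (t : ℕ → ℤ)
    (D : ℕ) (hB : ∀ n, Board (M n)) (hP : ∀ n, IsPath (M n) (o n) (I n) (γ n))
    (ht : ∀ n, t n ∈ I n) (htD : ∀ n, |t n| ≤ (D : ℤ)) (A : ℕ → Dir)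
    (hA : ∀ n, ∀ k ≤ n, pos (M n) (o n) A k ≠ γ n (t n)) :
    ∃ (M' : SimpleGraph V) (I' : Set ℤ) (γ' : ℤ → V) (t' : ℤ), Board M' ∧ IsPath M' 0 I' γ' ∧
      t' ∈ I' ∧ |t'| ≤ (D : ℤ) ∧ ∀ k, pos M' 0 A k ≠ γ' t' := by
  classical
  set U : Ultrafilter ℕ := hyperfilter ℕ with hU
  set M' := lim U M o with hM'
  have hadj : ∀ u v, M'.Adj u v ↔ ∀ᶠ n in (U : Filter ℕ), (M n).Adj (o n + u) (o n + v) :=
    fun u v => Iff.rfl
  set I' : Set ℤ := {i | ∀ᶠ n in (U : Filter ℕ), i ∈ I n} with hI'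
  have h0 : (0 : ℤ) ∈ I' := Eventually.of_forall fun n => (hP n).zero_mem
  have hord : ∀ i ∈ I', ∀ j ∈ I', ∀ k, i ≤ k → k ≤ j → k ∈ I' := by
    intro i hi j hj k h1 h2
    have hi' : ∀ᶠ n in (U : Filter ℕ), i ∈ I n := hi
    have hj' : ∀ᶠ n in (U : Filter ℕ), j ∈ I n := hj
    show ∀ᶠ n in (U : Filter ℕ), k ∈ I n
    filter_upwards [hi', hj'] with n h3 h4 using (hP n).interval.out h3 h4 ⟨h1, h2⟩
  have hnext : ∀ i ∈ I', ∀ j ∈ I', (j = i + 1 ∨ i = j + 1) →
      (∃ v, ∀ᶠ n in (U : Filter ℕ), γ n i = o n + v) →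
      ∃ v, ∀ᶠ n in (U : Filter ℕ), γ n j = o n + v := by
    rintro i hi j hj hij ⟨v, hv⟩
    have hi' : ∀ᶠ n in (U : Filter ℕ), i ∈ I n := hi
    have hj' : ∀ᶠ n in (U : Filter ℕ), j ∈ I n := hj
    have h1 : ∀ᶠ n in (U : Filter ℕ), ∃ c : Dir, γ n j = o n + v + c.vec := by
      filter_upwards [hi', hj', hv] with n h3 h4 h5
      rw [← h5]
      exact hB n _ _ (((hP n).adj i h3 j h4).2 hij)
    obtain ⟨c, hc⟩ := exists_dir h1
    refine ⟨v + c.vec, ?_⟩
    filter_upwards [hc] with n hn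
    rw [hn, add_assoc]
  have hex1 : ∀ m : ℕ, (m : ℤ) ∈ I' → ∃ v, ∀ᶠ n in (U : Filter ℕ), γ n m = o n + v := by
    intro m
    induction m with
    | zero =>
      intro _
      refine ⟨0, Eventually.of_forall fun n => ?_⟩
      rw [Nat.cast_zero, (hP n).start, add_zero]
    | succ m ih =>
      intro hm
      have hm' : (m : ℤ) ∈ I' := hord 0 h0 _ hm m (by positivity) (by push_cast; omega)
      exact hnext _ hm' _ hm (Or.inl (by push_cast; ring)) (ih hm')
  have hex2 : ∀ m : ℕ, (-(m : ℤ)) ∈ I' → ∃ v, ∀ᶠ n in (U : Filter ℕ), γ n (-(m : ℤ)) = o n + v := by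
    intro m
    induction m with
    | zero =>
      intro _
      refine ⟨0, Eventually.of_forall fun n => ?_⟩
      rw [Nat.cast_zero, neg_zero, (hP n).start, add_zero]
    | succ m ih =>
      intro hm
      have hm' : (-(m : ℤ)) ∈ I' := hord _ hm 0 h0 _ (by push_cast; omega) (by omega)
      exact hnext _ hm' _ hm (Or.inr (by push_cast; ring)) (ih hm')
  have hex : ∀ i ∈ I', ∃ v, ∀ᶠ n in (U : Filter ℕ), γ n i = o n + v := by
    intro i hi
    rcases Int.eq_nat_or_neg i with ⟨m, rfl | rfl⟩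
    · exact hex1 m hi
    · exact hex2 m hi
  have hex' : ∀ i : ℤ, ∃ v : V, i ∈ I' → ∀ᶠ n in (U : Filter ℕ), γ n i = o n + v := by
    intro i
    by_cases hi : i ∈ I'
    · obtain ⟨v, hv⟩ := hex i hi
      exact ⟨v, fun _ => hv⟩
    · exact ⟨0, fun h => absurd h hi⟩
  choose γ' hγ' using hex'
  -- the value is unique
  have huniq : ∀ (i : ℤ) (w : V), i ∈ I' → (∀ᶠ n in (U : Filter ℕ), γ n i = o n + w) →
      γ' i = w := by
    intro i w hi hw
    obtain ⟨n, h1, h2⟩ := ((hγ' i hi).and hw).exists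
    rw [h1] at h2
    exact add_left_cancel h2
  have hboard : Board M' := by
    intro u v huv
    obtain ⟨n, hn⟩ := ((hadj u v).1 huv).exists
    obtain ⟨c, hc⟩ := hB n _ _ hn
    exact ⟨c, by rw [add_assoc] at hc; exact add_left_cancel hc⟩
  have hadj' : ∀ i ∈ I', ∀ j ∈ I', (M'.Adj (γ' i) (γ' j) ↔ (j = i + 1 ∨ i = j + 1)) := by
    intro i hi j hj
    have hi' : ∀ᶠ n in (U : Filter ℕ), i ∈ I n := hi
    have hj' : ∀ᶠ n in (U : Filter ℕ), j ∈ I n := hj
    rw [hadj]
    constructor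
    · intro h
      obtain ⟨n, h1, h2, h3, h4, h5⟩ :=
        (h.and (hi'.and (hj'.and ((hγ' i hi).and (hγ' j hj))))).exists
      rw [← h4, ← h5] at h1
      exact ((hP n).adj i h2 j h3).1 h1
    · intro h
      filter_upwards [hi', hj', hγ' i hi, hγ' j hj] with n h2 h3 h4 h5
      rw [← h4, ← h5]
      exact ((hP n).adj i h2 j h3).2 h
  have hreach1 : ∀ m : ℕ, (m : ℤ) ∈ I' → M'.Reachable 0 (γ' m) := by
    intro m
    induction m with
    | zero =>
      intro _
      have : γ' ((0 : ℕ) : ℤ) = 0 := by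
        refine huniq _ _ (by simpa using h0) (Eventually.of_forall fun n => ?_)
        rw [Nat.cast_zero, (hP n).start, add_zero]
      rw [this]
    | succ m ih =>
      intro hm
      have hm' : (m : ℤ) ∈ I' := hord 0 h0 _ hm m (by positivity) (by push_cast; omega)
      exact (ih hm').trans ((hadj' _ hm' _ hm).2 (Or.inl (by push_cast; ring))).reachable
  have hreach2 : ∀ m : ℕ, (-(m : ℤ)) ∈ I' → M'.Reachable 0 (γ' (-(m : ℤ))) := by
    intro m
    induction m with
    | zero =>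
      intro _
      have : γ' (-((0 : ℕ) : ℤ)) = 0 := by
        refine huniq _ _ (by simpa using h0) (Eventually.of_forall fun n => ?_)
        rw [Nat.cast_zero, neg_zero, (hP n).start, add_zero]
      rw [this]
    | succ m ih =>
      intro hm
      have hm' : (-(m : ℤ)) ∈ I' := hord _ hm 0 h0 _ (by push_cast; omega) (by omega)
      exact (ih hm').trans ((hadj' _ hm' _ hm).2 (Or.inr (by push_cast; ring))).reachable
  have hclosed : ∀ i ∈ I', ∀ w, M'.Adj (γ' i) w → ∃ j ∈ I', γ' j = w := by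
    intro i hi w hw
    have hi' : ∀ᶠ n in (U : Filter ℕ), i ∈ I n := hi
    have h1 : ∀ᶠ n in (U : Filter ℕ), (i + 1 ∈ I n ∧ γ n (i + 1) = o n + w) ∨
        (i - 1 ∈ I n ∧ γ n (i - 1) = o n + w) := by
      filter_upwards [hi', hγ' i hi, (hadj _ _).1 hw] with n h2 h3 h4
      rw [← h3] at h4
      have h5 : (M n).Reachable (o n) (o n + w) :=
        (((hP n).comp (γ n i)).2 ⟨i, h2, rfl⟩).trans h4.reachable
      obtain ⟨j, hj, hje⟩ := ((hP n).comp _).1 h5
      rw [← hje] at h4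
      rcases ((hP n).adj i h2 j hj).1 h4 with h6 | h6
      · left
        rw [← h6]
        exact ⟨hj, hje⟩
      · right
        have : i - 1 = j := by omega
        rw [this]
        exact ⟨hj, hje⟩
    rw [Ultrafilter.eventually_or] at h1
    rcases h1 with h1 | h1
    · have h2 : i + 1 ∈ I' := h1.mono fun n hn => hn.1
      exact ⟨i + 1, h2, huniq _ _ h2 (h1.mono fun n hn => hn.2)⟩
    · have h2 : i - 1 ∈ I' := h1.mono fun n hn => hn.1
      exact ⟨i - 1, h2, huniq _ _ h2 (h1.mono fun n hn => hn.2)⟩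
  have hstart : γ' 0 = 0 := by
    refine huniq _ _ h0 (Eventually.of_forall fun n => ?_)
    rw [(hP n).start, add_zero]
  have hwalk : ∀ u v : V, M'.Walk u v → (∃ j ∈ I', γ' j = u) → ∃ j ∈ I', γ' j = v := by
    intro u v p
    induction p with
    | nil => exact fun h => h
    | cons hadj1 p ih =>
      rintro ⟨j, hj, rfl⟩
      exact ih (hclosed j hj _ hadj1)
  have hpath : IsPath M' 0 I' γ' := by
    refine ⟨?_, h0, hstart, ?_, ?_, hadj'⟩
    · exact ⟨fun i hi j hj k hk => hord i hi j hj k hk.1 hk.2⟩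
    · intro i hi j hj hij
      have hi' : ∀ᶠ n in (U : Filter ℕ), i ∈ I n := hi
      have hj' : ∀ᶠ n in (U : Filter ℕ), j ∈ I n := hj
      obtain ⟨n, h2, h3, h4, h5⟩ := (hi'.and (hj'.and ((hγ' i hi).and (hγ' j hj)))).exists
      rw [← hij, ← h4] at h5
      exact (hP n).inj h2 h3 h5.symm
    · intro v
      constructor
      · rintro ⟨p⟩
        exact hwalk _ _ p ⟨0, h0, hstart⟩
      · rintro ⟨i, hi, rfl⟩
        rcases Int.eq_nat_or_neg i with ⟨m, rfl | rfl⟩
        · exact hreach1 m hi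
        · exact hreach2 m hi
  -- the positions
  have hpos : ∀ k, ∀ᶠ n in (U : Filter ℕ), pos (M n) (o n) A k = o n + pos M' 0 A k := by
    intro k
    induction k with
    | zero =>
      refine Eventually.of_forall fun n => ?_
      simp [pos]
    | succ k ih =>
      by_cases hc : M'.Adj (pos M' 0 A k) (pos M' 0 A k + (A k).vec)
      · filter_upwards [ih, (hadj _ _).1 hc] with n h1 h2
        have h3 : (M n).Adj (o n + pos M' 0 A k) (o n + pos M' 0 A k + (A k).vec) := by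
          rw [add_assoc]
          exact h2
        rw [pos, pos, h1, step, step, if_pos hc, if_pos h3, add_assoc]
      · have hc' : ∀ᶠ n in (U : Filter ℕ),
            ¬ (M n).Adj (o n + pos M' 0 A k) (o n + (pos M' 0 A k + (A k).vec)) := by
          rw [Ultrafilter.eventually_not]
          exact fun h => hc ((hadj _ _).2 h)
        filter_upwards [ih, hc'] with n h1 h2
        have h3 : ¬ (M n).Adj (o n + pos M' 0 A k) (o n + pos M' 0 A k + (A k).vec) := by
          rw [add_assoc]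
          exact h2
        rw [pos, pos, h1, step, step, if_neg hc, if_neg h3]
  -- the destination
  have hfin : (Set.Icc (-(D : ℤ)) (D : ℤ)).Finite := Set.finite_Icc _ _
  obtain ⟨t', ht'D, ht'⟩ : ∃ a ∈ Set.Icc (-(D : ℤ)) (D : ℤ),
      ∀ᶠ n in (U : Filter ℕ), t n = a := by
    rw [← Ultrafilter.eventually_exists_mem_iff hfin]
    refine Eventually.of_forall fun n => ⟨t n, ?_, rfl⟩
    exact abs_le.1 (htD n)
  have ht'I : t' ∈ I' := by
    show ∀ᶠ n in (U : Filter ℕ), t' ∈ I n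
    filter_upwards [ht'] with n hn
    rw [← hn]
    exact ht n
  refine ⟨M', I', γ', t', hboard, hpath, ht'I, abs_le.2 ht'D, fun k hk => ?_⟩
  have hge : ∀ᶠ n in (U : Filter ℕ), k ≤ n :=
    Nat.hyperfilter_le_atTop (eventually_ge_atTop k)
  obtain ⟨n, h1, h2, h3, h4⟩ := (hge.and ((hpos k).and (ht'.and (hγ' t' ht'I)))).exists
  refine hA n k h1 ?_
  rw [h2, hk, h3, h4]

end Pool.Agent.Hhelper34.Maze
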