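import Pool.Agent.BlindAE.Words
import Pool.Agent.Hhelper34.Maze.Lim

/-!
Uniform time, rerooting, truncation and concatenation for mazes whose origin component is a path.
-/

set_option autoImplicit false

namespace Pool.Agent.Hhelper34.Maze

open Pool.Agent.BlindPath

/-- compactness for one algorithm -/
theorem uniform (A : ℕ → Dir) (D : ℕ)
    (h : ∀ (M : SimpleGraph V) (o : V) (I : Set ℤ) (γ : ℤ → V), Board M → IsPath M o I γ →
      ∀ t ∈ I, |t| ≤ (D : ℤ) → Solves A M o (γ t)) :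
    ∃ T : ℕ, ∀ (M : SimpleGraph V) (o : V) (I : Set ℤ) (γ : ℤ → V), Board M → IsPath M o I γ →
      ∀ t ∈ I, |t| ≤ (D : ℤ) → ∃ n ≤ T, pos M o A n = γ t := by
  by_contra hcon
  push Not at hcon
  choose M o I γ hB hP t ht htD hn using hcon
  obtain ⟨M', I', γ', t', hB', hP', ht', htD', hk⟩ :=
    limit M o I γ t D hB hP ht htD A (fun n k hk => hn n k hk)
  obtain ⟨k, hk'⟩ := h M' 0 I' γ' hB' hP' t' ht' htD'
  exact hk k hk'

theorem reroot {M : SimpleGraph V} {o : V} {I : Set ℤ} {γ : ℤ → V} (hP : IsPath M o I γ) {i : ℤ}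
    (hi : i ∈ I) : IsPath M (γ i) {k | k + i ∈ I} (fun k => γ (k + i)) := by
  refine ⟨⟨fun a ha b hb c hc => ?_⟩, ?_, ?_, ?_, ?_, ?_⟩
  · exact hP.interval.out ha hb ⟨by linarith [hc.1], by linarith [hc.2]⟩
  · show 0 + i ∈ I
    rw [zero_add]
    exact hi
  · show γ (0 + i) = γ i
    rw [zero_add]
  · intro a ha b hb hab
    have := hP.inj ha hb hab
    omega
  · intro v
    have h1 : M.Reachable o (γ i) := (hP.comp _).2 ⟨i, hi, rfl⟩
    constructor
    · intro h
      obtain ⟨j, hj, hje⟩ := (hP.comp v).1 (h1.trans h)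
      refine ⟨j - i, ?_, ?_⟩
      · show j - i + i ∈ I
        rw [sub_add_cancel]
        exact hj
      · show γ (j - i + i) = v
        rw [sub_add_cancel]
        exact hje
    · rintro ⟨k, hk, hke⟩
      exact h1.symm.trans ((hP.comp v).2 ⟨k + i, hk, hke⟩)
  · intro a ha b hb
    have := hP.adj (a + i) ha (b + i) hb
    rw [this]
    omega

/-- one step on the path -/
theorem step_path {M : SimpleGraph V} {o : V} {I : Set ℤ} {γ : ℤ → V} (hP : IsPath M o I γ)
    {i : ℤ} (hi : i ∈ I) (c : Dir) : (¬ M.Adj (γ i) (γ i + c.vec) ∧ step M (γ i) c = γ i) ∨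
      ∃ j ∈ I, (j = i + 1 ∨ i = j + 1) ∧ M.Adj (γ i) (γ i + c.vec) ∧ γ i + c.vec = γ j ∧
        step M (γ i) c = γ j := by
  by_cases hc : M.Adj (γ i) (γ i + c.vec)
  · right
    have hr : M.Reachable o (γ i + c.vec) :=
      ((hP.comp (γ i)).2 ⟨i, hi, rfl⟩).trans hc.reachable
    obtain ⟨j, hj, hje⟩ := (hP.comp _).1 hr
    have h3 : M.Adj (γ i) (γ j) := by rw [hje]; exact hc
    exact ⟨j, hj, (hP.adj i hi j hj).1 h3, hc, hje.symm, by rw [step, if_pos hc, hje]⟩
  · left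
    exact ⟨hc, by rw [step, if_neg hc]⟩

/-- the robot stays on the path -/
theorem pos_path {M : SimpleGraph V} {o : V} {I : Set ℤ} {γ : ℤ → V} (hP : IsPath M o I γ)
    (A : ℕ → Dir) (n : ℕ) : ∃ i ∈ I, pos M o A n = γ i ∧ |i| ≤ (n : ℤ) := by
  induction n with
  | zero => exact ⟨0, hP.zero_mem, by rw [pos, hP.start], by simp⟩
  | succ n ih =>
    obtain ⟨i, hi, h1, h2⟩ := ih
    rw [pos, h1]
    rcases step_path hP hi (A n) with ⟨-, h3⟩ | ⟨j, hj, h4, -, -, h3⟩
    · exact ⟨i, hi, h3, by push_cast; linarith⟩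
    · refine ⟨j, hj, h3, ?_⟩
      rw [abs_le] at h2 ⊢
      push_cast
      omega

/-- the maze cut at path distance `N` from the origin -/
def cut (M : SimpleGraph V) (I : Set ℤ) (γ : ℤ → V) (N : ℕ) : SimpleGraph V where
  Adj u v := M.Adj u v ∧ (∃ i ∈ I ∩ Set.Icc (-(N : ℤ)) N, γ i = u) ∧
    ∃ j ∈ I ∩ Set.Icc (-(N : ℤ)) N, γ j = v
  symm := ⟨fun _ _ h => ⟨h.1.symm, h.2.2, h.2.1⟩⟩
  loopless := ⟨fun _ h => h.1.ne rfl⟩

theorem cut_board {M : SimpleGraph V} (hM : Board M) (I : Set ℤ) (γ : ℤ → V) (N : ℕ) :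
    Board (cut M I γ N) := fun u v h => hM u v h.1

theorem cut_path {M : SimpleGraph V} {o : V} {I : Set ℤ} {γ : ℤ → V} (hP : IsPath M o I γ)
    (N : ℕ) : IsPath (cut M I γ N) o (I ∩ Set.Icc (-(N : ℤ)) N) γ := by
  have h0 : (0 : ℤ) ∈ I ∩ Set.Icc (-(N : ℤ)) N := ⟨hP.zero_mem, by constructor <;> simp⟩
  have hadj : ∀ i ∈ I ∩ Set.Icc (-(N : ℤ)) N, ∀ j ∈ I ∩ Set.Icc (-(N : ℤ)) N,
      ((cut M I γ N).Adj (γ i) (γ j) ↔ (j = i + 1 ∨ i = j + 1)) := by
    intro i hi j hj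
    constructor
    · exact fun h => (hP.adj i hi.1 j hj.1).1 h.1
    · exact fun h => ⟨(hP.adj i hi.1 j hj.1).2 h, ⟨i, hi, rfl⟩, ⟨j, hj, rfl⟩⟩
  have hord : (I ∩ Set.Icc (-(N : ℤ)) N).OrdConnected := hP.interval.inter Set.ordConnected_Icc
  refine ⟨hord, h0, hP.start, hP.inj.mono Set.inter_subset_left, ?_, hadj⟩
  have hwalk : ∀ u v : V, (cut M I γ N).Walk u v →
      (∃ j ∈ I ∩ Set.Icc (-(N : ℤ)) N, γ j = u) → ∃ j ∈ I ∩ Set.Icc (-(N : ℤ)) N, γ j = v := by
    intro u v p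
    induction p with
    | nil => exact fun h => h
    | cons hadj1 p ih => exact fun _ => ih hadj1.2.2
  have hr1 : ∀ m : ℕ, (m : ℤ) ∈ I ∩ Set.Icc (-(N : ℤ)) N →
      (cut M I γ N).Reachable o (γ m) := by
    intro m
    induction m with
    | zero => intro _; rw [Nat.cast_zero, hP.start]
    | succ m ih =>
      intro hm
      have hm' : (m : ℤ) ∈ I ∩ Set.Icc (-(N : ℤ)) N :=
        hord.out h0 hm ⟨by positivity, by push_cast; omega⟩
      exact (ih hm').trans ((hadj _ hm' _ hm).2 (Or.inl (by push_cast; ring))).reachable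
  have hr2 : ∀ m : ℕ, (-(m : ℤ)) ∈ I ∩ Set.Icc (-(N : ℤ)) N →
      (cut M I γ N).Reachable o (γ (-(m : ℤ))) := by
    intro m
    induction m with
    | zero => intro _; rw [Nat.cast_zero, neg_zero, hP.start]
    | succ m ih =>
      intro hm
      have hm' : (-(m : ℤ)) ∈ I ∩ Set.Icc (-(N : ℤ)) N :=
        hord.out hm h0 ⟨by push_cast; omega, by omega⟩
      exact (ih hm').trans ((hadj _ hm' _ hm).2 (Or.inr (by push_cast; ring))).reachable
  intro v
  constructor
  · rintro ⟨p⟩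
    exact hwalk _ _ p ⟨0, h0, hP.start⟩
  · rintro ⟨i, hi, rfl⟩
    rcases Int.eq_nat_or_neg i with ⟨m, rfl | rfl⟩
    · exact hr1 m hi
    · exact hr2 m hi

/-- the robot does not see the cut before time `N` -/
theorem cut_pos {M : SimpleGraph V} {o : V} {I : Set ℤ} {γ : ℤ → V} (hP : IsPath M o I γ)
    (N : ℕ) (A : ℕ → Dir) (n : ℕ) (hn : n ≤ N) : pos (cut M I γ N) o A n = pos M o A n := by
  induction n with
  | zero => rfl
  | succ n ih =>
    obtain ⟨i, hi, h1, h2⟩ := pos_path hP A n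
    rw [pos, pos, ih (by omega), h1]
    have hi' : i ∈ I ∩ Set.Icc (-(N : ℤ)) N := by
      refine ⟨hi, ?_⟩
      have := abs_le.1 h2
      constructor <;> omega
    rcases step_path hP hi (A n) with ⟨h4, h3⟩ | ⟨j, hj, h4, h5, h6, h3⟩
    · rw [h3, step, if_neg (fun h => h4 h.1)]
    · have hj' : j ∈ I ∩ Set.Icc (-(N : ℤ)) N := by
        refine ⟨hj, ?_⟩
        have := abs_le.1 h2
        constructor <;> omega
      have h7 : (cut M I γ N).Adj (γ i) (γ i + (A n).vec) :=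
        ⟨h5, ⟨i, hi', rfl⟩, ⟨j, hj', h6.symm⟩⟩
      rw [h3, step, if_pos h7, h6]

/-- from finite paths to all paths -/
theorem of_finite {A : ℕ → Dir} {D T : ℕ}
    (h : ∀ (M : SimpleGraph V) (o : V) (I : Set ℤ) (γ : ℤ → V), Board M → IsPath M o I γ →
      I.Finite → ∀ t ∈ I, |t| ≤ (D : ℤ) → ∃ n ≤ T, pos M o A n = γ t)
    (M : SimpleGraph V) (o : V) (I : Set ℤ) (γ : ℤ → V) (hB : Board M) (hP : IsPath M o I γ)
    (t : ℤ) (ht : t ∈ I) (htD : |t| ≤ (D : ℤ)) : ∃ n ≤ T, pos M o A n = γ t := by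
  have hN : t ∈ I ∩ Set.Icc (-((T + D : ℕ) : ℤ)) ((T + D : ℕ) : ℤ) := by
    refine ⟨ht, ?_⟩
    have := abs_le.1 htD
    constructor <;> push_cast <;> omega
  obtain ⟨n, hn, hne⟩ := h (cut M I γ (T + D)) o _ γ (cut_board hB I γ _) (cut_path hP (T + D))
    ((Set.finite_Icc _ _).inter_of_right _) t hN htD
  exact ⟨n, hn, by rw [← cut_pos hP (T + D) A n (by omega), hne]⟩

open Pool.Agent.BlindAE

theorem run_append (M : SimpleGraph V) (v : V) (W W' : List Dir) :
    run M v (W ++ W') = run M (run M v W) W' := by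
  simp [run]

/-- the first `n` letters of `A` -/
theorem run_ofFn (M : SimpleGraph V) (v : V) (A : ℕ → Dir) (n : ℕ) :
    run M v ((List.range n).map A) = pos M v A n := by
  induction n with
  | zero => simp [run, pos]
  | succ n ih => rw [List.range_succ, List.map_append, List.map_singleton, run_concat, ih, pos]

/-- concatenation -/
theorem concat
    (h : ∀ D : ℕ, ∃ (A : ℕ → Dir) (T : ℕ), ∀ (M : SimpleGraph V) (o : V) (I : Set ℤ) (γ : ℤ → V),
      Board M → IsPath M o I γ → ∀ t ∈ I, |t| ≤ (D : ℤ) → ∃ n ≤ T, pos M o A n = γ t) :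
    ∃ A : ℕ → Dir, ∀ (M : SimpleGraph V) (o : V) (I : Set ℤ) (γ : ℤ → V),
      Board M → IsPath M o I γ → ∀ t ∈ I, Solves A M o (γ t) := by
  choose A T hAT using h
  set w : ℕ → List Dir := fun D => (List.range (T D + 1)).map (A D) with hw
  set W : ℕ → List Dir := fun j => Nat.rec [] (fun j W => W ++ w (j + W.length)) j with hW
  have hW1 : ∀ j, W (j + 1) = W j ++ w (j + (W j).length) := fun j => rfl
  obtain ⟨B, hB⟩ := exists_algo W fun j => ⟨w (j + (W j).length), by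
    intro h0
    have := congrArg List.length h0
    simp [hw] at this, hW1 j⟩
  refine ⟨B, fun M o I γ hM hP t ht => ?_⟩
  by_contra hns
  have hmiss := hB M o (γ t) hns (t.natAbs + 1)
  rw [hW1] at hmiss
  obtain ⟨i, hi, h1, h2⟩ := run_path hP (W t.natAbs)
  have hti : t - i + i = t := by ring
  obtain ⟨n, hn, hne⟩ := hAT (t.natAbs + (W t.natAbs).length) M (γ i) _ _ hM (reroot hP hi)
    (t - i) (by show t - i + i ∈ I; rw [hti]; exact ht) (by
      rw [abs_le, Nat.cast_add]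
      omega)
  rw [hti] at hne
  refine hmiss (W t.natAbs ++ (List.range n).map (A (t.natAbs + (W t.natAbs).length))) ?_ ?_
  · refine List.prefix_append_right_inj _ |>.2 ?_
    rw [hw]
    refine List.IsPrefix.map _ ?_
    rw [List.prefix_iff_eq_take, List.take_range]
    rw [List.length_range]
    congr 1
    omega
  · rw [run_append, ← h1, run_ofFn, hne]

end Pool.Agent.Hhelper34.Maze
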