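import Pool.Agent.Hhelper34.Maze.Core

/-!
The uniform and the finite form of the question.
-/

set_option autoImplicit false

namespace Pool.Agent.Hhelper34.Maze

open Pool.Agent.BlindPath

/-- for one algorithm -/
theorem one (A : ℕ → Dir) :
    (∀ (M : SimpleGraph V) (o : V) (I : Set ℤ) (γ : ℤ → V), Board M → IsPath M o I γ →
      ∀ t ∈ I, Solves A M o (γ t)) ↔
    ∀ D : ℕ, ∃ T : ℕ, ∀ (M : SimpleGraph V) (o : V) (I : Set ℤ) (γ : ℤ → V), Board M →
      IsPath M o I γ → I.Finite → ∀ t ∈ I, |t| ≤ (D : ℤ) → ∃ n ≤ T, pos M o A n = γ t := by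
  constructor
  · intro h D
    obtain ⟨T, hT⟩ := uniform A D (fun M o I γ hM hP t ht _ => h M o I γ hM hP t ht)
    exact ⟨T, fun M o I γ hM hP _ t ht htD => hT M o I γ hM hP t ht htD⟩
  · intro h M o I γ hM hP t ht
    obtain ⟨T, hT⟩ := h t.natAbs
    obtain ⟨n, -, hn⟩ := of_finite hT M o I γ hM hP t ht (by rw [Int.natCast_natAbs])
    exact ⟨n, hn⟩

theorem two :
    [∃ A : ℕ → Dir, ∀ (M : SimpleGraph V) (o : V) (I : Set ℤ) (γ : ℤ → V), Board M →
        IsPath M o I γ → ∀ t ∈ I, Solves A M o (γ t),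
      ∃ (A : ℕ → Dir) (T : ℕ → ℕ), ∀ (M : SimpleGraph V) (o : V) (I : Set ℤ) (γ : ℤ → V),
        Board M → IsPath M o I γ → ∀ t ∈ I, ∃ n ≤ T t.natAbs, pos M o A n = γ t,
      ∀ D : ℕ, ∃ (A : ℕ → Dir) (T : ℕ), ∀ (M : SimpleGraph V) (o : V) (I : Set ℤ) (γ : ℤ → V),
        Board M → IsPath M o I γ → I.Finite → ∀ t ∈ I, |t| ≤ (D : ℤ) →
          ∃ n ≤ T, pos M o A n = γ t].TFAE := by
  tfae_have 1 → 2 := by
    rintro ⟨A, hA⟩
    choose T hT using fun D : ℕ =>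
      uniform A D (fun M o I γ hM hP t ht _ => hA M o I γ hM hP t ht)
    exact ⟨A, T, fun M o I γ hM hP t ht =>
      hT t.natAbs M o I γ hM hP t ht (by rw [Int.natCast_natAbs])⟩
  tfae_have 2 → 3 := by
    rintro ⟨A, T, hA⟩ D
    obtain ⟨T', hT'⟩ := uniform A D (fun M o I γ hM hP t ht _ => by
      obtain ⟨n, -, hn⟩ := hA M o I γ hM hP t ht
      exact ⟨n, hn⟩)
    exact ⟨A, T', fun M o I γ hM hP _ t ht htD => hT' M o I γ hM hP t ht htD⟩
  tfae_have 3 → 1 := by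
    intro h
    refine concat fun D => ?_
    obtain ⟨A, T, hT⟩ := h D
    exact ⟨A, T, fun M o I γ hM hP t ht htD => of_finite hT M o I γ hM hP t ht htD⟩
  tfae_finish

end Pool.Agent.Hhelper34.Maze
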