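import Pool.Agent.Hhelper34.Maze.Core
import Mathlib.Topology.GDelta.Basic

/-!
The set of the algorithms which solve all mazes of `𝒩` is a `Gδ` set, and it is empty or dense.
-/

set_option autoImplicit false

namespace Pool.Agent.Hhelper34.Maze

open Pool.Agent.BlindPath Filter Topology

/-- The discrete topology on the four instructions. -/
instance : TopologicalSpace Dir := ⊥

instance : DiscreteTopology Dir := ⟨rfl⟩

/-- The position after `n` instructions depends on the first `n` instructions only. -/
theorem pos_congr (M : SimpleGraph V) (o : V) {A B : ℕ → Dir} :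
    ∀ n : ℕ, (∀ k < n, A k = B k) → pos M o A n = pos M o B n := by
  intro n
  induction n with
  | zero => intro _; rfl
  | succ n ih =>
    intro h
    rw [pos, pos, ih fun k hk => h k (Nat.lt_succ_of_lt hk), h n (Nat.lt_succ_self n)]

/-- The letters of `A` before `k`, then `A₀`. -/
theorem pos_shift (M : SimpleGraph V) (o : V) (A A₀ : ℕ → Dir) (k n : ℕ) :
    pos M o (fun m => if m < k then A m else A₀ (m - k)) (k + n) =
      pos M (pos M o A k) A₀ n := by
  induction n with
  | zero =>
    show pos M o _ k = pos M o A k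
    exact pos_congr M o k fun m hm => by simp [hm]
  | succ n ih =>
    have h1 : ¬ k + n < k := by omega
    have h2 : k + n - k = n := by omega
    show step M (pos M o _ (k + n)) (if k + n < k then A (k + n) else A₀ (k + n - k)) =
      step M _ (A₀ n)
    rw [ih, if_neg h1, h2]

/-- The algorithms which reach every vertex of the path at distance at most `D` within `T` steps
form an open set. -/
theorem isOpen_within (D T : ℕ) : IsOpen {A : ℕ → Dir | ∀ (M : SimpleGraph V) (o : V) (I : Set ℤ)
    (γ : ℤ → V), Board M → IsPath M o I γ → ∀ t ∈ I, |t| ≤ (D : ℤ) →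
      ∃ n ≤ T, pos M o A n = γ t} := by
  rw [isOpen_iff_forall_mem_open]
  intro A hA
  refine ⟨⋂ k ∈ Finset.range T, (fun B : ℕ → Dir => B k) ⁻¹' {A k}, ?_, ?_, ?_⟩
  · intro B hB M o I γ hM hP t ht htD
    obtain ⟨n, hn, h⟩ := hA M o I γ hM hP t ht htD
    refine ⟨n, hn, ?_⟩
    rw [← h]
    refine pos_congr M o n fun k hk => ?_
    have := Set.mem_iInter₂.1 hB k (Finset.mem_range.2 (lt_of_lt_of_le hk hn))
    exact this
  · exact isOpen_biInter_finset fun k _ => (isOpen_discrete _).preimage (continuous_apply k)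
  · exact Set.mem_iInter₂.2 fun k _ => rfl

/-- The set of the algorithms which solve all mazes of `𝒩` is a `Gδ` set, and it is empty or
dense. -/
theorem gdelta_dense :
    IsGδ {A : ℕ → Dir | ∀ (M : SimpleGraph V) (o : V) (I : Set ℤ) (γ : ℤ → V), Board M →
      IsPath M o I γ → ∀ t ∈ I, Solves A M o (γ t)} ∧
    ({A : ℕ → Dir | ∀ (M : SimpleGraph V) (o : V) (I : Set ℤ) (γ : ℤ → V), Board M →
      IsPath M o I γ → ∀ t ∈ I, Solves A M o (γ t)}.Nonempty →
    Dense {A : ℕ → Dir | ∀ (M : SimpleGraph V) (o : V) (I : Set ℤ) (γ : ℤ → V), Board M →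
      IsPath M o I γ → ∀ t ∈ I, Solves A M o (γ t)}) := by
  constructor
  · have h : {A : ℕ → Dir | ∀ (M : SimpleGraph V) (o : V) (I : Set ℤ) (γ : ℤ → V), Board M →
        IsPath M o I γ → ∀ t ∈ I, Solves A M o (γ t)} =
        ⋂ D : ℕ, ⋃ T : ℕ, {A : ℕ → Dir | ∀ (M : SimpleGraph V) (o : V) (I : Set ℤ)
          (γ : ℤ → V), Board M → IsPath M o I γ → ∀ t ∈ I, |t| ≤ (D : ℤ) →
            ∃ n ≤ T, pos M o A n = γ t} := by
      ext A
      simp only [Set.mem_ofPred_eq, Set.mem_iInter, Set.mem_iUnion]
      constructor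
      · intro hA D
        exact uniform A D fun M o I γ hM hP t ht _ => hA M o I γ hM hP t ht
      · intro hA M o I γ hM hP t ht
        obtain ⟨T, hT⟩ := hA t.natAbs
        obtain ⟨n, -, hn⟩ := hT M o I γ hM hP t ht (by rw [Int.natCast_natAbs])
        exact ⟨n, hn⟩
    rw [h]
    exact IsGδ.iInter_of_isOpen fun D => isOpen_iUnion fun T => isOpen_within D T
  · rintro ⟨A₀, hA₀⟩ A
    refine mem_closure_of_tendsto (f := fun (k m : ℕ) => if m < k then A m else A₀ (m - k))
      (b := atTop) ?_ (Eventually.of_forall fun k => ?_)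
    · rw [tendsto_pi_nhds]
      intro m
      refine tendsto_const_nhds.congr' ?_
      filter_upwards [eventually_gt_atTop m] with k hk
      simp [hk]
    · intro M o I γ hM hP t ht
      obtain ⟨i, hi, hpos, -⟩ := pos_path hP A k
      obtain ⟨n, hn⟩ := hA₀ M (γ i) {j | j + i ∈ I} (fun j => γ (j + i)) hM (reroot hP hi) (t - i)
        (by simpa using ht)
      refine ⟨k + n, ?_⟩
      rw [pos_shift, hpos, hn]
      simp

end Pool.Agent.Hhelper34.Maze
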